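import Mathlib
import Pool.Agent.Lib.MP_87d5f7_gt.Defs
import Pool.Agent.Lib.MP_87d5f7_gt.Cocompact
import Pool.Agent.Lib.MP_87d5f7_gt.HypW
import Pool.Agent.Lib.MP_87d5f7_gt.Negative

/-!
There is a word-hyperbolic Coxeter group (the right-angled Coxeter group whose defining graph is
the pentagon with every vertex doubled) which admits a convex cocompact representation into
`Isom(ℍ^21)`, but which is not realized as a convex cocompact reflection group of `Isom(ℍ^n)`,
for any `n`.

The representation sends the three involutions of each of the five vertex groups `(ℤ/2)²` to
half-turns (products of two orthogonal reflections). In any convex cocompact reflection group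
isomorphic to the given group, each vertex group would contain two orthogonal reflections, and
the Gram matrix of the ten unit vectors so obtained cannot have only one negative direction.
-/

namespace Pool.Agent.Results.MP_87d5f7_gt.DoubledPentagon

open Pool.Agent.Lib.MP_87d5f7_gt

/-- A word-hyperbolic Coxeter group of finite rank with a convex cocompact representation into
some `Isom(ℍ^d)` that is, for no `n`, a convex cocompact reflection group of `Isom(ℍ^n)`. -/
theorem result :
    ∃ (B : Type) (_ : Finite B) (M : CoxeterMatrix B),
      IsWordHyperbolic M.Group ∧
      (∃ d : ℕ, AdmitsConvexCocompactRep M.Group d) ∧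
      ∀ n : ℕ, ¬ IsConvexCocompactReflectionGroup M.Group n :=
  ⟨ZMod 5 × Fin 2, inferInstance, pentMatrix, isWordHyperbolic_PW, ⟨21, admits⟩,
    not_reflectionGroup⟩

end Pool.Agent.Results.MP_87d5f7_gt.DoubledPentagon
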